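import Pool.Agent.Lib.MP_6bc78b_nt.MS.QZ.Iface
import Pool.Agent.Lib.MP_6bc78b_nt.MS.QZ.H05.Psm
import Pool.Agent.Lib.MP_6bc78b_nt.MS.QZ.H84.Tll
import Pool.Agent.Lib.MP_6bc78b_nt.MS.QZ.H38.Acn

/-! Project MS, Part QZ, module PBK (helper81): powers of the prime polynomial. -/

set_option autoImplicit false

open Complex ArithmeticFunction

namespace Pool.Agent.Lib.MP_6bc78b_nt.MS.QZ.H81

open Pool.Agent.Lib.MP_6bc78b_nt.MS.QZ

/-- The values of `pS S ^ r`. -/
theorem pow_facts (hV : VnuStatement) (S : Finset ℕ) (r e : ℕ) (he : e ≠ 0) :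
    0 ≤ (pS S ^ r) e ∧ ((pS S ^ r) e) ^ 2 ≤ (r.factorial : ℝ) * (pS S ^ r) e ∧
      ((pS S ^ r) e ≠ 0 → e.primeFactors.card ≤ r) := by
  have h0 := Psm.pow_nonneg' S r e
  have h1 := hV.1 S r e he
  have hn := H38.nu_nonneg e
  have hn1 := H38.nu_le_one e
  refine ⟨h0, ?_, ?_⟩
  · have h2 : (pS S ^ r) e ≤ (r.factorial : ℝ) := by
      rw [h1]
      split_ifs
      · nlinarith [mul_le_mul_of_nonneg_left hn1 (Nat.cast_nonneg (α := ℝ) r.factorial)]
      · positivity
    rw [sq]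
    exact mul_le_mul_of_nonneg_right h2 h0
  · intro hne
    rw [h1] at hne
    have h3 : e.primeFactors ⊆ S ∧ cardFactors e = r := by
      by_contra hc
      exact hne (if_neg hc)
    rw [← h3.2, cardFactors_apply]
    exact List.toFinset_card_le _

/-- Squarefree numbers composed of primes in `S`. -/
theorem ae_two (S : Finset ℕ) (d : ℕ) (hd : Squarefree d) (hS : d.primeFactors ⊆ S) :
    ae 2 S d = 2 ^ d.primeFactors.card := by
  have hd0 : d ≠ 0 := hd.ne_zero
  have h1 : ae 2 S d = if d ≠ 0 ∧ d.primeFactors ⊆ S then (2 : ℝ) ^ (cardFactors d) * nu d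
    else 0 := rfl
  rw [h1, if_pos ⟨hd0, hS⟩]
  have h2 : nu d = 1 := by
    unfold nu
    refine Finset.prod_eq_one fun p hp => ?_
    have hp' : p.Prime := Nat.prime_of_mem_primeFactors hp
    have h3 : d.factorization p = 1 := by
      have h4 := hd.natFactorization_le_one p
      have h5 : 0 < d.factorization p :=
        hp'.factorization_pos_of_dvd hd0 (Nat.dvd_of_mem_primeFactors hp)
      omega
    rw [h3]
    simp
  have h6 : cardFactors d = d.primeFactors.card := by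
    rw [← (cardDistinctFactors_eq_cardFactors_iff_squarefree hd0).2 hd,
      cardDistinctFactors_apply]
    rfl
  rw [h2, h6, mul_one]

theorem ae_nonneg (S : Finset ℕ) (d : ℕ) : 0 ≤ ae 2 S d := by
  have h1 : ae 2 S d = if d ≠ 0 ∧ d.primeFactors ⊆ S then (2 : ℝ) ^ (cardFactors d) * nu d
    else 0 := rfl
  rw [h1]
  have := H38.nu_nonneg d
  split_ifs <;> positivity

/-- The pointwise bound. -/
theorem point (hV : VnuStatement) (S : Finset ℕ) (z : ℂ) (r : ℕ) (hz : 0 ≤ z.re) (n : ℕ)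
    (hn : n ≠ 0) :
    ‖(muz S z * toC (pS S ^ r)) n‖ ^ 2 ≤
      (2 ^ r * (r.factorial : ℝ)) * (ae 2 S * pS S ^ r) n := by
  classical
  set c : ArithmeticFunction ℝ := pS S ^ r with hc
  have hmem : ∀ x ∈ n.divisorsAntidiagonal, x.1 ≠ 0 ∧ x.2 ≠ 0 ∧ x.1 * x.2 = n := by
    intro x hx
    obtain ⟨hxn, _⟩ := Nat.mem_divisorsAntidiagonal.1 hx
    exact ⟨fun h => hn (by rw [← hxn, h, zero_mul]), fun h => hn (by rw [← hxn, h, mul_zero]), hxn⟩
  set F := n.divisorsAntidiagonal.filter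
    (fun x => muz S z x.1 ≠ 0 ∧ c x.2 ≠ 0) with hF
  have hsum : (muz S z * toC c) n = ∑ x ∈ F, muz S z x.1 * toC c x.2 := by
    rw [mul_apply, hF, Finset.sum_filter_of_ne]
    intro x _ hx
    refine ⟨left_ne_zero_of_mul hx, fun h => ?_⟩
    apply hx
    rw [toC_apply, h]
    simp
  -- the elements of `F`
  have hFm : ∀ x ∈ F, Squarefree x.1 ∧ x.1.primeFactors ⊆ S ∧ ‖muz S z x.1‖ ≤ 1 ∧
      x.2.primeFactors.card ≤ r ∧ x.1.primeFactors ⊆ n.primeFactors ∧
      n.primeFactors.card ≤ x.1.primeFactors.card + r := by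
    intro x hx
    rw [hF, Finset.mem_filter] at hx
    obtain ⟨hx1, hx2, hx3⟩ := hx
    obtain ⟨h1, h2, h3⟩ := hmem x hx1
    have h4 := H84.norm_muz_le S z hz x.1 h1
    have h5 : x.1.primeFactors ⊆ S := by
      by_contra hcon
      exact hx2 (h4.2 hcon)
    have h6 : moebius x.1 ≠ 0 := by
      intro h0
      apply hx2
      have : muz S z x.1 = if x.1.primeFactors ⊆ S then
        ((moebius x.1 : ℤ) : ℂ) * (x.1 : ℂ) ^ (-z) else 0 := rfl
      rw [this, h0]
      simp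
    have h7 : Squarefree x.1 := moebius_ne_zero_iff_squarefree.1 h6
    have h8 : ‖muz S z x.1‖ ≤ 1 := by
      refine h4.1.trans ?_
      rw [H84.m2_apply]
      rcases moebius_eq_or x.1 with h | h | h
      · rw [h]; norm_num
      · rw [h]; norm_num
      · rw [h]; norm_num
    have h9 := (pow_facts hV S r x.2 h2).2.2 hx3
    have h10 : n.primeFactors = x.1.primeFactors ∪ x.2.primeFactors := by
      rw [← h3, Nat.primeFactors_mul h1 h2]
    refine ⟨h7, h5, h8, h9, ?_, ?_⟩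
    · rw [h10]
      exact Finset.subset_union_left
    · rw [h10]
      exact (Finset.card_union_le _ _).trans (by omega)
  have hcard : F.card ≤ 2 ^ n.primeFactors.card := by
    rw [← Finset.card_powerset]
    refine Finset.card_le_card_of_injOn (fun x => x.1.primeFactors) ?_ ?_
    · intro x hx
      rw [Finset.mem_coe, Finset.mem_powerset]
      exact (hFm x hx).2.2.2.2.1
    · intro x hx y hy hxy
      have hx' : x ∈ F := hx
      have hy' : y ∈ F := hy
      have e1 : x.1 = y.1 := by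
        rw [← Nat.prod_primeFactors_of_squarefree (hFm x hx').1,
          ← Nat.prod_primeFactors_of_squarefree (hFm y hy').1]
        exact congrArg (fun s : Finset ℕ => ∏ p ∈ s, p) hxy
      have hx1 := (hmem x (Finset.mem_filter.1 hx').1)
      have hy1 := (hmem y (Finset.mem_filter.1 hy').1)
      have e2 : x.2 = y.2 := by
        have : x.1 * x.2 = x.1 * y.2 := by rw [hx1.2.2, e1, hy1.2.2]
        exact Nat.eq_of_mul_eq_mul_left (Nat.pos_of_ne_zero hx1.1) this
      exact Prod.ext e1 e2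
  have hCS : ‖∑ x ∈ F, muz S z x.1 * toC c x.2‖ ^ 2 ≤
      (F.card : ℝ) * ∑ x ∈ F, ‖muz S z x.1 * toC c x.2‖ ^ 2 := by
    calc ‖∑ x ∈ F, muz S z x.1 * toC c x.2‖ ^ 2 ≤ (∑ x ∈ F, ‖muz S z x.1 * toC c x.2‖) ^ 2 :=
          pow_le_pow_left₀ (norm_nonneg _) (norm_sum_le _ _) 2
      _ ≤ _ := sq_sum_le_card_mul_sum_sq
  rw [hsum]
  refine hCS.trans ?_
  rw [mul_apply, Finset.mul_sum, Finset.mul_sum]
  calc ∑ x ∈ F, (F.card : ℝ) * ‖muz S z x.1 * toC c x.2‖ ^ 2
      ≤ ∑ x ∈ F, (2 ^ r * (r.factorial : ℝ)) * (ae 2 S x.1 * c x.2) := by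
        refine Finset.sum_le_sum fun x hx => ?_
        obtain ⟨g1, g2, g3, g4, g5, g6⟩ := hFm x hx
        have hx1 := (hmem x (Finset.mem_filter.1 hx).1)
        obtain ⟨p0, p1, -⟩ := pow_facts hV S r x.2 hx1.2.1
        rw [ae_two S x.1 g1 g2, norm_mul, toC_apply, Complex.norm_real, Real.norm_eq_abs,
          mul_pow, sq_abs]
        have k1 : (F.card : ℝ) ≤ 2 ^ x.1.primeFactors.card * 2 ^ r := by
          rw [← pow_add]
          have k2 : F.card ≤ 2 ^ (x.1.primeFactors.card + r) :=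
            hcard.trans (Nat.pow_le_pow_right (by norm_num) g6)
          exact_mod_cast k2
        have k3 : ‖muz S z x.1‖ ^ 2 ≤ 1 := pow_le_one₀ (norm_nonneg _) g3
        have k4 : ‖muz S z x.1‖ ^ 2 * (c x.2) ^ 2 ≤ 1 * ((r.factorial : ℝ) * c x.2) :=
          mul_le_mul k3 p1 (sq_nonneg _) (by norm_num)
        calc (F.card : ℝ) * (‖muz S z x.1‖ ^ 2 * (c x.2) ^ 2)
            ≤ (2 ^ x.1.primeFactors.card * 2 ^ r) * (1 * ((r.factorial : ℝ) * c x.2)) :=
              mul_le_mul k1 k4 (by positivity) (by positivity)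
          _ = _ := by ring
    _ ≤ ∑ x ∈ n.divisorsAntidiagonal, (2 ^ r * (r.factorial : ℝ)) * (ae 2 S x.1 * c x.2) := by
        refine Finset.sum_le_sum_of_subset_of_nonneg (Finset.filter_subset _ _) ?_
        intro x _ _
        exact mul_nonneg (by positivity) (mul_nonneg (ae_nonneg S _) (Psm.pow_nonneg' S r _))

/-- PBK. -/
theorem pbk (hV : VnuStatement) (hP : PsmStatement) : PbkStatement := by
  intro S z r hS hz
  have h1 : Psm.WS (ae 2 S * pS S ^ r) (Real.exp (2 * rs S) * rs S ^ r) :=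
    Psm.WS_mul (hP.2 S 2 hS (by norm_num)) (hP.1 S r hS)
  have h2 : HasSum (fun n : ℕ => (2 ^ r * (r.factorial : ℝ)) * ((ae 2 S * pS S ^ r) n / (n : ℝ)))
      ((2 ^ r * (r.factorial : ℝ)) * (Real.exp (2 * rs S) * rs S ^ r)) := h1.mul_left _
  have h3 : Real.exp (2 * rs S) * (2 ^ r * (r.factorial : ℝ) * rs S ^ r) =
      (2 ^ r * (r.factorial : ℝ)) * (Real.exp (2 * rs S) * rs S ^ r) := by ring
  have hnn : ∀ n : ℕ, 0 ≤ (2 ^ r * (r.factorial : ℝ)) * ((ae 2 S * pS S ^ r) n / (n : ℝ)) := by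
    intro n
    have : 0 ≤ (ae 2 S * pS S ^ r) n := by
      rw [mul_apply]
      exact Finset.sum_nonneg fun x _ => mul_nonneg (ae_nonneg S _) (Psm.pow_nonneg' S r _)
    positivity
  rw [h3, ← h2.tsum_eq, ENNReal.ofReal_tsum_of_nonneg hnn h2.summable]
  unfold NN
  refine ENNReal.tsum_le_tsum fun n => ENNReal.ofReal_le_ofReal ?_
  by_cases hn : n = 0
  · subst hn
    simp
  · rw [← mul_div_assoc]
    exact div_le_div_of_nonneg_right (point hV S z r hz n hn) (Nat.cast_nonneg n)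

end Pool.Agent.Lib.MP_6bc78b_nt.MS.QZ.H81
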